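import Pool.Agent.Lib.MP_688fd0_co.SQ6.Top
import Pool.Agent.Lib.MP_688fd0_co.OSF.H87.Smallgen2

/-!
Row TWOH of board B1* (helper9): two `P`-heights, from MERGE, CELL and PART.
-/

set_option autoImplicit false

namespace Pool.Agent.Lib.MP_688fd0_co.SQ6.H9

open Pool.Agent.Lib.MP_688fd0_co.OSF Pool.Agent.Lib.MP_688fd0_co.SQ3
open Pool.Agent.Lib.MP_688fd0_co.SQ2.H41 (GNE comm_of_cyclic)

theorem lst_mono {G : Type} [Group G] {A B : Set G} (h : A ⊆ B) (hA : Lst A) : Lst B := by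
  obtain ⟨a, h1, h2⟩ := hA
  exact ⟨a, fun i => h (h1 i), h2⟩

/-- The number of prime factors is at most their number with multiplicity in a multiple. -/
theorem card_pf_le {a b : ℕ} (hb : b ≠ 0) (h : a ∣ b) :
    a.primeFactors.card ≤ b.primeFactorsList.length := by
  have h1 : a.primeFactors ⊆ b.primeFactors := Nat.primeFactors_mono h hb
  exact (Finset.card_le_card h1).trans (List.toFinset_card_le _)

theorem num (s k Ω c n : ℕ) (hs : s = k + Ω) (hk : 1 ≤ k) (hΩ : 1 ≤ Ω) (hc : c ≤ (2 * (Ω + 2)) ^ 2)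
    (hn : n ≤ 2 ^ (60 * (k + Ω + 2))) : n * (k * c) ≤ 2 ^ (s ^ 10) := by
  have h1 : k ≤ 2 ^ k := Nat.lt_two_pow_self.le
  have h2 : 2 * (Ω + 2) ≤ 2 ^ (Ω + 3) := by
    have : Ω + 2 ≤ 2 ^ (Ω + 2) := Nat.lt_two_pow_self.le
    calc 2 * (Ω + 2) ≤ 2 * 2 ^ (Ω + 2) := by omega
      _ = 2 ^ (Ω + 3) := by ring
  have h3 : (2 * (Ω + 2)) ^ 2 ≤ 2 ^ (2 * (Ω + 3)) := by
    calc (2 * (Ω + 2)) ^ 2 ≤ (2 ^ (Ω + 3)) ^ 2 := Nat.pow_le_pow_left h2 2
      _ = 2 ^ (2 * (Ω + 3)) := by rw [← pow_mul, mul_comm]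
  have h4 : 60 * (k + Ω + 2) + (k + 2 * (Ω + 3)) ≤ s ^ 10 := by
    have h5 : 2 ≤ s := by omega
    have h6 : 2 ^ 9 * s ≤ s ^ 10 := by
      calc 2 ^ 9 * s ≤ s ^ 9 * s := Nat.mul_le_mul_right _ (Nat.pow_le_pow_left h5 9)
        _ = s ^ 10 := by ring
    have h7 : (2 : ℕ) ^ 9 = 512 := by norm_num
    rw [h7] at h6
    omega
  calc n * (k * c) ≤ 2 ^ (60 * (k + Ω + 2)) * (2 ^ k * 2 ^ (2 * (Ω + 3))) :=
        Nat.mul_le_mul hn (Nat.mul_le_mul h1 (hc.trans h3))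
    _ = 2 ^ (60 * (k + Ω + 2) + (k + 2 * (Ω + 3))) := by rw [← pow_add, ← pow_add]
    _ ≤ 2 ^ (s ^ 10) := Nat.pow_le_pow_right (by norm_num) h4

/-- Row TWOH. -/
theorem twoh_proof (hMerge : MergeS) (hCell : CellS) (hPart : PartS) : TwoHS := by
  classical
  refine ⟨10, ?_⟩
  intro G _ _ N C eps k P A hGN hsym hgen heps hcls hP
  obtain ⟨a, ha, b, hb, hab⟩ := hcls
  have hG : GNE N C eps k P := hGN.toGNE
  have hG0 : Nat.card G ≠ 0 := Nat.card_pos.ne'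
  have hk0 : k ≠ 0 := by
    rw [← hG.idx]
    exact Subgroup.index_ne_zero_of_finite
  have hN0 : Nat.card N ≠ 0 := Nat.card_pos.ne'
  have hPN : P ∈ (Nat.card N).primeFactors := Nat.mem_primeFactors.2 ⟨hG.prime, hG.dvd, hN0⟩
  have hNG : Nat.card N ∣ Nat.card G := Subgroup.card_subgroup_dvd_card N
  have hPG : P ∣ Nat.card G := hG.dvd.trans hNG
  have h4k := (hG.big P hPN).1
  have hP2 : P ≠ 2 := by omega
  obtain ⟨⟨M, hMn, hM⟩, hodd⟩ := hPart G N C eps k P hGN hP2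
  set Ω := (Nat.card G).primeFactorsList.length with hΩ
  have hΩ1 : 1 ≤ Ω := by
    have : P ∈ (Nat.card G).primeFactorsList := (Nat.mem_primeFactorsList hG0).2 ⟨hG.prime, hPG⟩
    exact List.length_pos_of_mem this
  -- the two classes
  obtain ⟨l, hl1, hl2, hl3⟩ := H87.smallgen2 G A hgen
  have hmemM : ∀ s ∈ A, ∀ t ∈ A, ¬ P ∣ orderOf (s * t⁻¹) → s * t⁻¹ ∈ M := by
    intro s hs t ht h
    rw [hM]
    exact ⟨by rw [map_mul, map_inv, heps s hs, heps t ht]; simp, h⟩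
  have hinvM : ∀ s ∈ A, s⁻¹ * s⁻¹ ∈ M := by
    intro s hs
    rw [hM]
    refine ⟨by rw [map_mul, map_inv, heps s hs]; simp, fun h => hodd s (heps s hs) ?_⟩
    refine h.trans ?_
    rw [← mul_inv_rev, orderOf_inv, ← sq]
    exact orderOf_pow_dvd 2
  set F : Finset G := (a :: b :: l).toFinset with hF
  have hFA : ∀ s ∈ F, s ∈ A := by
    intro s hs
    rw [hF, List.mem_toFinset, List.mem_cons, List.mem_cons] at hs
    rcases hs with rfl | rfl | hs
    · exact ha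
    · exact hb
    · exact hl1 s hs
  have hFc : F.card ≤ Ω + 2 := by
    refine (List.toFinset_card_le _).trans ?_
    simp only [List.length_cons]
    omega
  set F' : Finset G := F ∪ F.image (fun s => s⁻¹) with hF'
  have hF'c : F'.card ≤ 2 * (Ω + 2) := by
    refine (Finset.card_union_le _ _).trans ?_
    have := Finset.card_image_le (s := F) (f := fun s : G => s⁻¹)
    omega
  have hF'A : ∀ s ∈ F', s ∈ A := by
    intro s hs
    rw [hF', Finset.mem_union, Finset.mem_image] at hs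
    rcases hs with hs | ⟨t, ht, rfl⟩
    · exact hFA s hs
    · exact hsym t (hFA t ht)
  have hF'i : ∀ s ∈ F', s⁻¹ ∈ F' := by
    intro s hs
    rw [hF', Finset.mem_union, Finset.mem_image] at hs ⊢
    rcases hs with hs | ⟨t, ht, rfl⟩
    · exact Or.inr ⟨s, hs, rfl⟩
    · rw [inv_inv]
      exact Or.inl ht
  have hcl : ∀ c ∈ A, ∃ X : Set G, X = {s | s ∈ F' ∧ s * c⁻¹ ∈ M} ∧ (∀ s ∈ X, s⁻¹ ∈ X) ∧
      (∀ s ∈ X, eps s = -1) ∧ (∀ s ∈ X, ∀ t ∈ X, s * t⁻¹ ∈ M) ∧ Nat.card X ≤ 2 * (Ω + 2) := by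
    intro c hc
    refine ⟨_, rfl, ?_, ?_, ?_, ?_⟩
    · rintro s ⟨h1, h2⟩
      refine ⟨hF'i s h1, ?_⟩
      have h3 : s⁻¹ * c⁻¹ = (s⁻¹ * s⁻¹) * (s * c⁻¹) := by group
      rw [h3]
      exact M.mul_mem (hinvM s (hF'A s h1)) h2
    · rintro s ⟨h1, -⟩
      exact heps s (hF'A s h1)
    · rintro s ⟨-, h2⟩ t ⟨-, h4⟩
      have h3 : s * t⁻¹ = (s * c⁻¹) * (t * c⁻¹)⁻¹ := by group
      rw [h3]
      exact M.mul_mem h2 (M.inv_mem h4)
    · have h1 : ({s | s ∈ F' ∧ s * c⁻¹ ∈ M} : Set G) ⊆ (F' : Set G) := fun s hs => hs.1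
      have h2 := Set.ncard_le_ncard h1 F'.finite_toSet
      rw [Set.ncard_coe_finset] at h2
      rw [Nat.card_coe_set_eq]
      exact h2.trans hF'c
  obtain ⟨A₀, e₀, i₀, p₀, m₀, c₀⟩ := hcl a ha
  obtain ⟨A₁, e₁, i₁, p₁, m₁, c₁⟩ := hcl b hb
  have haF : a ∈ F := by rw [hF]; simp
  have hbF : b ∈ F := by rw [hF]; simp
  have hFF' : F ⊆ F' := Finset.subset_union_left
  have ha₀ : a ∈ A₀ := by
    rw [e₀]
    exact ⟨hFF' haF, by rw [mul_inv_cancel]; exact M.one_mem⟩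
  have hb₁ : b ∈ A₁ := by
    rw [e₁]
    exact ⟨hFF' hbF, by rw [mul_inv_cancel]; exact M.one_mem⟩
  have hun : ∀ s ∈ F', s ∈ A₀ ∪ A₁ := by
    intro s hs
    rcases hab s (hF'A s hs) with h | h
    · left
      rw [e₀]
      exact ⟨hs, hmemM s (hF'A s hs) a ha h⟩
    · right
      rw [e₁]
      exact ⟨hs, hmemM s (hF'A s hs) b hb h⟩
  have hsub : A₀ ∪ A₁ ⊆ A := by
    rintro s (hs | hs)
    · rw [e₀] at hs
      exact hF'A s hs.1
    · rw [e₁] at hs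
      exact hF'A s hs.1
  have hgen' : Subgroup.closure (A₀ ∪ A₁) = ⊤ := by
    rw [eq_top_iff, ← hl3]
    refine Subgroup.closure_mono fun x hx => hun x (hFF' ?_)
    rw [hF, List.mem_toFinset]
    exact List.mem_cons_of_mem _ (List.mem_cons_of_mem _ hx)
  obtain ⟨H, V, ω, hV, -, hHM, hLst⟩ := hCell G A₀ A₁ eps N ⟨a, ha₀⟩ ⟨b, hb₁⟩ i₀ i₁ p₀ p₁ hgen' hG.Nn
    (fun x hx => MonoidHom.mem_ker.2 (hG.eN x hx)) (comm_of_cyclic N hG.Nc)
  have hHM' : H ≤ M := hHM M hMn m₀ m₁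
  -- the index of `H`
  have hPH : ¬ P ∣ Nat.card H := by
    intro h
    haveI : Fact P.Prime := ⟨hG.prime⟩
    obtain ⟨x, hx⟩ := exists_prime_orderOf_dvd_card' (G := H) P h
    have h1 := ((hM (x : G)).1 (hHM' x.2)).2
    rw [Subgroup.orderOf_coe, hx] at h1
    exact h1 dvd_rfl
  have hPle : P ≤ H.index := by
    refine Nat.le_of_dvd (Nat.pos_of_ne_zero Subgroup.index_ne_zero_of_finite) ?_
    have h1 : P ∣ Nat.card H * H.index := by rw [H.card_mul_index]; exact hPG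
    exact (hG.prime.dvd_mul.1 h1).resolve_left hPH
  -- MERGE
  haveI := hG.Nn
  set C' : Subgroup H := N.subgroupOf H with hC'
  have hC'n : C'.Normal := inferInstance
  have hcard : Nat.card C' ∣ Nat.card N := by
    have h1 : Nat.card C' = Nat.card (N ⊓ H : Subgroup G) := by
      have h2 : (N ⊓ H).subgroupOf H = C' := by rw [Subgroup.inf_subgroupOf_right]
      rw [← h2]
      exact Nat.card_congr (Subgroup.subgroupOfEquivOfLe inf_le_right).toEquiv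
    rw [h1]
    exact Subgroup.card_dvd_of_le inf_le_left
  have hidx : C'.index ∣ k := by
    rw [← hG.idx]
    exact Subgroup.relIndex_dvd_index_of_normal N H
  have hidxle : C'.index ≤ k := Nat.le_of_dvd (Nat.pos_of_ne_zero hk0) hidx
  have hcyc : IsCyclic C' := by
    haveI := hG.Nc
    refine isCyclic_of_injective (G := C') (G' := N) (f := ?_) ?_
    · exact
        { toFun := fun x => ⟨((x : H) : G), x.2⟩
          map_one' := rfl
          map_mul' := fun _ _ => rfl }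
    · intro x y hxy
      have h1 : ((x : H) : G) = ((y : H) : G) := congrArg (fun z : N => (z : G)) hxy
      exact Subtype.ext (Subtype.ext h1)
  have hsq' : Squarefree (Nat.card C') := hG.Nsq.squarefree_of_dvd hcard
  have hcop' : (Nat.card C').Coprime C'.index :=
    (hG.cop.coprime_dvd_left hcard).coprime_dvd_right hidx
  have hpf : (Nat.card C').primeFactors.card ≤ Ω := card_pf_le hG0 (hcard.trans hNG)
  obtain ⟨f, hf1, hf2⟩ := hMerge H V C' ω hV hC'n hcyc hsq' hcop' (by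
    intro p hp
    have hpN : p ∈ (Nat.card N).primeFactors := Nat.primeFactors_mono hcard hN0 hp
    have h1 := (hG.big p hpN).1
    have h2 := hGN.marg p hpN
    rw [← hΩ] at h2
    refine ⟨by omega, ?_⟩
    have h3 : 2 * Ω + 2 ≤ (Ω + 2) ^ 10 := by
      calc 2 * Ω + 2 ≤ (Ω + 2) ^ 2 := by nlinarith
        _ ≤ (Ω + 2) ^ 10 := Nat.pow_le_pow_right (by omega) (by norm_num)
    omega)
  refine lst_mono hsub (hLst _ f ?_ hf1 hf2)
  rw [hG.idx]
  have hn : bd C'.index (Nat.card C').primeFactors.card ≤ 2 ^ (60 * (k + Ω + 2)) := by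
    unfold bd
    exact Nat.pow_le_pow_right (by norm_num) (by omega)
  have hc : Nat.card A₀ * Nat.card A₁ ≤ (2 * (Ω + 2)) ^ 2 := by
    rw [sq]
    exact Nat.mul_le_mul c₀ c₁
  exact ((num (k + Ω) k Ω _ _ rfl (Nat.pos_of_ne_zero hk0) hΩ1 hc hn).trans hP).trans hPle

end Pool.Agent.Lib.MP_688fd0_co.SQ6.H9
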